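import Pool.Agent.Helper56.TH.Defs

/-!
# T1a: the ordered semiring of a model of `RCA₀` (MP_6f1bc5_lc)
-/

universe u

namespace Pool.Agent.Helper56.TH

open Classical

namespace OrderAux

variable {A : L2.{u}} (hA : RCA0 A)

/-- the variable of induction -/
abbrev V : Tm A 2 := .var 1
/-- the existentially quantified variable -/
abbrev X : Tm A 2 := .var 0

include hA

/-- `Σ⁰₁` induction in semantic form -/
theorem sind (θ : Fm A 2) (hθ : θ.Bdd) (P : A.N → Prop)
    (hP : ∀ n, P n ↔ ∃ x, θ.Sat ![x, n]) (h0 : P A.zero)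
    (hs : ∀ n, P n → P (A.add n A.one)) : ∀ n, P n :=
  hA.sigma1_induction P ⟨θ, hθ, hP⟩ h0 hs

/-- induction for a bounded formula -/
theorem ind (θ : Fm A 2) (hθ : θ.Bdd) (P : A.N → Prop)
    (hP : ∀ x n, θ.Sat ![x, n] ↔ P n) (h0 : P A.zero)
    (hs : ∀ n, P n → P (A.add n A.one)) : ∀ n, P n := by
  refine sind hA θ hθ P (fun n => ?_) h0 hs
  constructor
  · intro h
    exact ⟨A.zero, (hP _ _).2 h⟩
  · rintro ⟨x, hx⟩
    exact (hP _ _).1 hx

theorem add_assoc' (x y z : A.N) : A.add (A.add x y) z = A.add x (A.add y z) := by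
  have b := hA.basic
  refine ind hA (.eq (.add (.add (.par x) (.par y)) V) (.add (.par x) (.add (.par y) V)))
    trivial (fun z => A.add (A.add x y) z = A.add x (A.add y z)) (fun _ _ => Iff.rfl) ?_ ?_ z
  · simp only [b.add_zero]
  · intro n hn
    simp only [b.add_succ, hn]

theorem zero_add' (x : A.N) : A.add A.zero x = x := by
  have b := hA.basic
  refine ind hA (.eq (.add .zero V) V)
    trivial (fun x => A.add A.zero x = x) (fun _ _ => Iff.rfl) ?_ ?_ x
  · simp only [b.add_zero]
  · intro n hn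
    simp only [b.add_succ, hn]

theorem one_add' (x : A.N) : A.add A.one x = A.add x A.one := by
  have b := hA.basic
  refine ind hA (.eq (.add .one V) (.add V .one))
    trivial (fun x => A.add A.one x = A.add x A.one) (fun _ _ => Iff.rfl) ?_ ?_ x
  · simp only [b.add_zero, zero_add' hA]
  · intro n hn
    simp only [b.add_succ, hn]

theorem add_comm' (x y : A.N) : A.add x y = A.add y x := by
  have b := hA.basic
  refine ind hA (.eq (.add (.par x) V) (.add V (.par x)))
    trivial (fun y => A.add x y = A.add y x) (fun _ _ => Iff.rfl) ?_ ?_ y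
  · simp only [b.add_zero, zero_add' hA]
  · intro n hn
    rw [b.add_succ, hn, ← b.add_succ, ← one_add' hA x, ← add_assoc' hA]

theorem mul_add' (x y z : A.N) : A.mul x (A.add y z) = A.add (A.mul x y) (A.mul x z) := by
  have b := hA.basic
  refine ind hA (.eq (.mul (.par x) (.add (.par y) V)) (.add (.mul (.par x) (.par y))
    (.mul (.par x) V))) trivial
    (fun z => A.mul x (A.add y z) = A.add (A.mul x y) (A.mul x z)) (fun _ _ => Iff.rfl) ?_ ?_ z
  · simp only [b.add_zero, b.mul_zero]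
  · intro n hn
    rw [b.add_succ, b.mul_succ, b.mul_succ, hn, add_assoc' hA]

theorem zero_mul' (x : A.N) : A.mul A.zero x = A.zero := by
  have b := hA.basic
  refine ind hA (.eq (.mul .zero V) .zero)
    trivial (fun x => A.mul A.zero x = A.zero) (fun _ _ => Iff.rfl) ?_ ?_ x
  · simp only [b.mul_zero]
  · intro n hn
    simp only [b.mul_succ, hn, b.add_zero]

theorem add_mul' (x y z : A.N) : A.mul (A.add x y) z = A.add (A.mul x z) (A.mul y z) := by
  have b := hA.basic
  refine ind hA (.eq (.mul (.add (.par x) (.par y)) V) (.add (.mul (.par x) V)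
    (.mul (.par y) V))) trivial
    (fun z => A.mul (A.add x y) z = A.add (A.mul x z) (A.mul y z)) (fun _ _ => Iff.rfl) ?_ ?_ z
  · simp only [b.add_zero, b.mul_zero]
  · intro n hn
    rw [b.mul_succ, b.mul_succ, b.mul_succ, hn, add_assoc' hA, add_assoc' hA,
      ← add_assoc' hA (A.mul y n) x y, add_comm' hA (A.mul y n) x, add_assoc' hA]

theorem mul_one' (x : A.N) : A.mul x A.one = x := by
  have b := hA.basic
  have : A.one = A.add A.zero A.one := (zero_add' hA _).symm
  rw [this, b.mul_succ, b.mul_zero, zero_add' hA]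

theorem one_mul' (x : A.N) : A.mul A.one x = x := by
  have b := hA.basic
  refine ind hA (.eq (.mul .one V) V)
    trivial (fun x => A.mul A.one x = x) (fun _ _ => Iff.rfl) ?_ ?_ x
  · simp only [b.mul_zero]
  · intro n hn
    simp only [b.mul_succ, hn]

theorem mul_comm' (x y : A.N) : A.mul x y = A.mul y x := by
  have b := hA.basic
  refine ind hA (.eq (.mul (.par x) V) (.mul V (.par x)))
    trivial (fun y => A.mul x y = A.mul y x) (fun _ _ => Iff.rfl) ?_ ?_ y
  · simp only [b.mul_zero, zero_mul' hA]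
  · intro n hn
    rw [b.mul_succ, hn, add_mul' hA, one_mul' hA]

theorem mul_assoc' (x y z : A.N) : A.mul (A.mul x y) z = A.mul x (A.mul y z) := by
  have b := hA.basic
  refine ind hA (.eq (.mul (.mul (.par x) (.par y)) V) (.mul (.par x) (.mul (.par y) V)))
    trivial (fun z => A.mul (A.mul x y) z = A.mul x (A.mul y z)) (fun _ _ => Iff.rfl) ?_ ?_ z
  · simp only [b.mul_zero]
  · intro n hn
    rw [b.mul_succ, hn, b.mul_succ, mul_add' hA]

theorem add_cancel' (x y z : A.N) (h : A.add x z = A.add y z) : x = y := by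
  have b := hA.basic
  refine ind hA (.not (.and (.eq (.add (.par x) V) (.add (.par y) V))
    (.not (.eq (.par x) (.par y)))))
    ⟨trivial, trivial⟩ (fun z => A.add x z = A.add y z → x = y) (fun _ n => ?_) ?_ ?_ z h
  · show ¬ (A.add x n = A.add y n ∧ ¬ x = y) ↔ (A.add x n = A.add y n → x = y)
    tauto
  · simp only [b.add_zero]
    exact fun h => h
  · intro n hn he
    rw [b.add_succ, b.add_succ] at he
    exact hn (b.succ_inj _ _ he)

theorem lt_add_succ' (x z : A.N) : A.lt x (A.add (A.add x z) A.one) := by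
  have b := hA.basic
  refine ind hA (.lt (.par x) (.add (.add (.par x) V) .one))
    trivial (fun z => A.lt x (A.add (A.add x z) A.one)) (fun _ _ => Iff.rfl) ?_ ?_ z
  · exact (b.lt_succ _ _).2 (Or.inr (b.add_zero _).symm)
  · intro n hn
    refine (b.lt_succ _ _).2 (Or.inl ?_)
    rw [b.add_succ]
    exact hn

theorem exists_of_lt' (x y : A.N) (h : A.lt x y) : ∃ z, y = A.add (A.add x z) A.one := by
  have b := hA.basic
  have key := sind hA (.not (.and (.lt (.par x) V)
    (.not (.eq V (.add (.add (.par x) X) .one)))))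
    ⟨trivial, trivial⟩ (fun y => A.lt x y → ∃ z, y = A.add (A.add x z) A.one) (fun n => ?_)
    ?_ ?_ y h
  · exact key
  · show (A.lt x n → ∃ z, n = A.add (A.add x z) A.one) ↔
      ∃ z, ¬ (A.lt x n ∧ ¬ n = A.add (A.add x z) A.one)
    constructor
    · intro h
      by_cases hx : A.lt x n
      · obtain ⟨z, hz⟩ := h hx
        exact ⟨z, fun h' => h'.2 hz⟩
      · exact ⟨A.zero, fun h' => hx h'.1⟩
    · rintro ⟨z, hz⟩ hx
      exact ⟨z, by by_contra h'; exact hz ⟨hx, h'⟩⟩
  · intro h
    exact absurd h (b.not_lt_zero _)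
  · intro n ih hn
    rcases (b.lt_succ _ _).1 hn with h1 | h1
    · obtain ⟨z, hz⟩ := ih h1
      refine ⟨A.add z A.one, ?_⟩
      rw [b.add_succ, ← hz]
    · refine ⟨A.zero, ?_⟩
      rw [b.add_zero, h1]

theorem lt_iff' (x y : A.N) : A.lt x y ↔ ∃ z, y = A.add (A.add x z) A.one :=
  ⟨exists_of_lt' hA x y, by rintro ⟨z, rfl⟩; exact lt_add_succ' hA x z⟩

theorem zero_or_succ' (x : A.N) : x = A.zero ∨ ∃ y, x = A.add y A.one := by
  have b := hA.basic
  refine sind hA (.not (.and (.not (.eq V .zero)) (.not (.eq V (.add X .one)))))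
    ⟨trivial, trivial⟩ (fun x => x = A.zero ∨ ∃ y, x = A.add y A.one) (fun n => ?_) ?_ ?_ x
  · show (n = A.zero ∨ ∃ y, n = A.add y A.one) ↔ ∃ y, ¬ (¬ n = A.zero ∧ ¬ n = A.add y A.one)
    constructor
    · rintro (h | ⟨y, h⟩)
      · exact ⟨A.zero, fun h' => h'.1 h⟩
      · exact ⟨y, fun h' => h'.2 h⟩
    · rintro ⟨y, h⟩
      by_contra hc
      push Not at hc
      exact h ⟨hc.1, hc.2 y⟩
  · exact Or.inl rfl
  · intro n _
    exact Or.inr ⟨n, rfl⟩

theorem total' (x y : A.N) : (∃ z, A.add x z = y) ∨ ∃ z, A.add y z = x := by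
  have b := hA.basic
  refine sind hA (.not (.and (.not (.eq (.add (.par x) X) V)) (.not (.eq (.add V X) (.par x)))))
    ⟨trivial, trivial⟩ (fun y => (∃ z, A.add x z = y) ∨ ∃ z, A.add y z = x) (fun n => ?_)
    ?_ ?_ y
  · show ((∃ z, A.add x z = n) ∨ ∃ z, A.add n z = x) ↔
      ∃ z, ¬ (¬ A.add x z = n ∧ ¬ A.add n z = x)
    constructor
    · rintro (⟨y, h⟩ | ⟨y, h⟩)
      · exact ⟨y, fun h' => h'.1 h⟩
      · exact ⟨y, fun h' => h'.2 h⟩
    · rintro ⟨y, h⟩
      by_contra hc
      push Not at hc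
      exact h ⟨hc.1 y, hc.2 y⟩
  · exact Or.inr ⟨x, zero_add' hA x⟩
  · intro n ih
    rcases ih with ⟨z, hz⟩ | ⟨z, hz⟩
    · exact Or.inl ⟨A.add z A.one, by rw [b.add_succ, hz]⟩
    · rcases zero_or_succ' hA z with h | ⟨z', h⟩
      · refine Or.inl ⟨A.one, ?_⟩
        rw [h, b.add_zero] at hz
        rw [hz]
      · refine Or.inr ⟨z', ?_⟩
        rw [add_assoc' hA, one_add' hA, ← h, hz]

theorem add_eq_zero' (x y : A.N) (h : A.add x y = A.zero) : x = A.zero := by
  have b := hA.basic
  rcases zero_or_succ' hA y with h1 | ⟨z, h1⟩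
  · rw [h1, b.add_zero] at h
    exact h
  · rw [h1, b.add_succ] at h
    exact absurd h (b.succ_ne_zero _)

theorem zero_ne_one' : A.zero ≠ A.one := by
  have b := hA.basic
  intro h
  apply b.succ_ne_zero A.zero
  rw [zero_add' hA, h]

/-- the semiring of the model -/
noncomputable abbrev semiring : CommSemiring A.N where
  add := A.add
  mul := A.mul
  zero := A.zero
  one := A.one
  add_assoc := add_assoc' hA
  zero_add := zero_add' hA
  add_zero := hA.basic.add_zero
  add_comm := add_comm' hA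
  mul_assoc := mul_assoc' hA
  zero_mul := zero_mul' hA
  mul_zero := hA.basic.mul_zero
  one_mul := one_mul' hA
  mul_one := mul_one' hA
  left_distrib := mul_add' hA
  right_distrib := add_mul' hA
  mul_comm := mul_comm' hA
  nsmul := @nsmulRec _ ⟨A.zero⟩ ⟨A.add⟩
  npow := @npowRec _ ⟨A.one⟩ ⟨A.mul⟩

/-- the order of the model -/
noncomputable abbrev order : LinearOrder A.N where
  le x y := ∃ z, A.add x z = y
  lt x y := A.lt x y
  le_refl x := ⟨A.zero, hA.basic.add_zero x⟩
  le_trans := by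
    rintro x y z ⟨a, rfl⟩ ⟨b, rfl⟩
    exact ⟨A.add a b, (add_assoc' hA _ _ _).symm⟩
  le_antisymm := by
    rintro x y ⟨a, rfl⟩ ⟨b, hb⟩
    have h1 : A.add (A.add a b) x = A.add A.zero x := by
      rw [add_comm' hA, ← add_assoc' hA, hb, zero_add' hA]
    have h2 := add_cancel' hA _ _ _ h1
    have h3 := add_eq_zero' hA _ _ h2
    rw [h3, hA.basic.add_zero]
  le_total := total' hA
  lt_iff_le_not_ge x y := by
    rw [lt_iff' hA]
    constructor
    · rintro ⟨z, rfl⟩
      refine ⟨⟨A.add z A.one, by rw [hA.basic.add_succ]⟩, ?_⟩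
      rintro ⟨w, hw⟩
      have h1 : A.add (A.add (A.add z A.one) w) x = A.add A.zero x := by
        rw [add_comm' hA, ← add_assoc' hA, hA.basic.add_succ, hw, zero_add' hA]
      have h2 := add_cancel' hA _ _ _ h1
      exact hA.basic.succ_ne_zero _ (add_eq_zero' hA _ _ h2)
    · rintro ⟨⟨z, rfl⟩, h⟩
      rcases zero_or_succ' hA z with h1 | ⟨z', h1⟩
      · exact absurd ⟨A.zero, by rw [h1, hA.basic.add_zero, hA.basic.add_zero]⟩ h
      · exact ⟨z', by rw [h1, hA.basic.add_succ]⟩
  toDecidableLE := fun _ _ => Classical.propDecidable _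

end OrderAux

open OrderAux in
/-- T1a -/
theorem exists_order (A : L2.{u}) (hA : RCA0 A) :
    ∃ (_ : CommSemiring A.N) (_ : LinearOrder A.N) (_ : IsStrictOrderedRing A.N)
      (_ : CanonicallyOrderedAdd A.N),
      (∀ x y : A.N, x + y = A.add x y) ∧ (∀ x y : A.N, x * y = A.mul x y) ∧
      (0 : A.N) = A.zero ∧ (1 : A.N) = A.one ∧ (∀ x y : A.N, x < y ↔ A.lt x y) ∧
      ∀ x y : A.N, x < y → x + 1 ≤ y := by
  let s : CommSemiring A.N := semiring hA
  let o : LinearOrder A.N := order hA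
  have hadd : ∀ x y : A.N, x + y = A.add x y := fun _ _ => rfl
  have hmul : ∀ x y : A.N, x * y = A.mul x y := fun _ _ => rfl
  have hle : ∀ x y : A.N, x ≤ y ↔ ∃ z, x + z = y := fun _ _ => Iff.rfl
  have hlt : ∀ x y : A.N, x < y ↔ ∃ z, y = x + z + 1 := fun x y => lt_iff' hA x y
  have hcancel : ∀ x y z : A.N, x + z = y + z → x = y := add_cancel' hA
  have h1 : IsStrictOrderedRing A.N :=
    { add_le_add_left := by
        intro a b hab c
        obtain ⟨z, rfl⟩ := (hle _ _).1 hab
        exact (hle _ _).2 ⟨z, by ring⟩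
      le_of_add_le_add_left := by
        intro a b c hab
        obtain ⟨z, hz⟩ := (hle _ _).1 hab
        refine (hle _ _).2 ⟨z, hcancel _ _ a ?_⟩
        rw [add_comm c a, ← hz]
        ring
      zero_le_one := (hle _ _).2 ⟨1, by ring⟩
      exists_pair_ne := ⟨0, 1, zero_ne_one' hA⟩
      mul_lt_mul_of_pos_left := by
        intro a ha b c hbc
        obtain ⟨z, rfl⟩ := (hlt _ _).1 ha
        obtain ⟨w, rfl⟩ := (hlt _ _).1 hbc
        refine (hlt _ _).2 ⟨w + z + z * w, ?_⟩
        ring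
      mul_lt_mul_of_pos_right := by
        intro a ha b c hbc
        obtain ⟨z, rfl⟩ := (hlt _ _).1 ha
        obtain ⟨w, rfl⟩ := (hlt _ _).1 hbc
        refine (hlt _ _).2 ⟨w + z + z * w, ?_⟩
        ring }
  have h2 : CanonicallyOrderedAdd A.N :=
    { exists_add_of_le := by
        intro a b hab
        obtain ⟨z, rfl⟩ := (hle _ _).1 hab
        exact ⟨z, rfl⟩
      le_add_self := by
        intro a b
        exact (hle _ _).2 ⟨b, by ring⟩
      le_self_add := by
        intro a b
        exact (hle _ _).2 ⟨b, rfl⟩ }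
  refine ⟨s, o, h1, h2, hadd, hmul, rfl, rfl, fun _ _ => Iff.rfl, ?_⟩
  intro x y hxy
  obtain ⟨z, rfl⟩ := (hlt _ _).1 hxy
  exact (hle _ _).2 ⟨z, by ring⟩

end Pool.Agent.Helper56.TH
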