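import Pool.Agent.Helper56.TH.Iface
import Pool.Agent.Helper85.TH.Order

/-!
# T1b: a model of `RCA₀` satisfies the closure properties `Base` (MP_6f1bc5_lc)
-/

set_option linter.unusedSectionVars false

universe u

namespace Pool.Agent.Helper56.TH

open Classical

namespace RcaAux

variable {A : L2.{u}}

/-! ### renaming of variables -/

/-- renaming in terms -/
def tren {n m : ℕ} (σ : Fin n → Fin m) : Tm A n → Tm A m
  | .var i => .var (σ i)
  | .par a => .par a
  | .zero => .zero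
  | .one => .one
  | .add s t => .add (tren σ s) (tren σ t)
  | .mul s t => .mul (tren σ s) (tren σ t)

theorem tren_val {n m : ℕ} (σ : Fin n → Fin m) (v : Fin m → A.N) (s : Tm A n) :
    (tren σ s).val v = s.val (fun i => v (σ i)) := by
  induction s with
  | var i => rfl
  | par a => rfl
  | zero => rfl
  | one => rfl
  | add s t ih1 ih2 => simp only [tren, Tm.val, ih1, ih2]
  | mul s t ih1 ih2 => simp only [tren, Tm.val, ih1, ih2]

/-- lifting a renaming under a binder -/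
def lft {n m : ℕ} (σ : Fin n → Fin m) : Fin (n + 1) → Fin (m + 1) :=
  Fin.cons 0 (fun i => (σ i).succ)

theorem cons_lft {n m : ℕ} (σ : Fin n → Fin m) (x : A.N) (v : Fin m → A.N) :
    (fun i => (Fin.cons x v : Fin (m + 1) → A.N) (lft σ i)) =
      (Fin.cons x (fun i => v (σ i)) : Fin (n + 1) → A.N) := by
  funext i
  refine Fin.cases ?_ (fun j => ?_) i
  · simp [lft]
  · simp [lft]

/-- renaming in formulas -/
def fren : {n : ℕ} → Fm A n → {m : ℕ} → (Fin n → Fin m) → Fm A m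
  | _, .eq s t, _, σ => .eq (tren σ s) (tren σ t)
  | _, .lt s t, _, σ => .lt (tren σ s) (tren σ t)
  | _, .mem t X hX, _, σ => .mem (tren σ t) X hX
  | _, .not φ, _, σ => .not (fren φ σ)
  | _, .and φ ψ, _, σ => .and (fren φ σ) (fren ψ σ)
  | _, .ball t φ, _, σ => .ball (tren σ t) (fren φ (lft σ))
  | _, .all φ, _, σ => .all (fren φ (lft σ))

theorem fren_bdd {n : ℕ} (φ : Fm A n) : ∀ {m : ℕ} (σ : Fin n → Fin m), φ.Bdd →
    (fren φ σ).Bdd := by
  induction φ with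
  | eq s t => intros; trivial
  | lt s t => intros; trivial
  | mem t X hX => intros; trivial
  | not φ ih => intro m σ h; exact ih σ h
  | and φ ψ ih1 ih2 => intro m σ h; exact ⟨ih1 σ h.1, ih2 σ h.2⟩
  | ball t φ ih => intro m σ h; exact ih (lft σ) h
  | all φ ih => intro m σ h; exact h.elim

theorem fren_sat {n : ℕ} (φ : Fm A n) : ∀ {m : ℕ} (σ : Fin n → Fin m) (v : Fin m → A.N),
    (fren φ σ).Sat v ↔ φ.Sat (fun i => v (σ i)) := by
  induction φ with
  | eq s t => intro m σ v; simp only [fren, Fm.Sat, tren_val]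
  | lt s t => intro m σ v; simp only [fren, Fm.Sat, tren_val]
  | mem t X hX => intro m σ v; simp only [fren, Fm.Sat, tren_val]
  | not φ ih => intro m σ v; simp only [fren, Fm.Sat, ih]
  | and φ ψ ih1 ih2 => intro m σ v; simp only [fren, Fm.Sat, ih1, ih2]
  | ball t φ ih => intro m σ v; simp only [fren, Fm.Sat, tren_val, ih, cons_lft]
  | all φ ih => intro m σ v; simp only [fren, Fm.Sat, ih, cons_lft]

variable [CommSemiring A.N] [LinearOrder A.N] [IsStrictOrderedRing A.N]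
  [CanonicallyOrderedAdd A.N]

/-- the model `A` together with its ordered semiring structure -/
structure Ctx (A : L2.{u}) [CommSemiring A.N] [LinearOrder A.N] [IsStrictOrderedRing A.N]
    [CanonicallyOrderedAdd A.N] : Prop where
  rca : RCA0 A
  add : ∀ x y : A.N, x + y = A.add x y
  mul : ∀ x y : A.N, x * y = A.mul x y
  zero : (0 : A.N) = A.zero
  one : (1 : A.N) = A.one
  lt : ∀ x y : A.N, x < y ↔ A.lt x y
  succ : ∀ x y : A.N, x < y → x + 1 ≤ y

/-! ### terms -/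

/-- `f` is the value of a term -/
def Td {n : ℕ} (f : (Fin n → A.N) → A.N) : Prop := ∃ s : Tm A n, ∀ v, s.val v = f v

theorem td_var {n : ℕ} (i : Fin n) : Td (A := A) (fun v => v i) := ⟨.var i, fun _ => rfl⟩

theorem td_const {n : ℕ} (a : A.N) : Td (n := n) (fun _ => a) := ⟨.par a, fun _ => rfl⟩

theorem td_add (c : Ctx A) {n : ℕ} {f g : (Fin n → A.N) → A.N} (hf : Td f) (hg : Td g) :
    Td (fun v => f v + g v) := by
  obtain ⟨s, hs⟩ := hf
  obtain ⟨t, ht⟩ := hg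
  exact ⟨.add s t, fun v => by beta_reduce; rw [c.add, ← hs, ← ht]; rfl⟩

theorem td_mul (c : Ctx A) {n : ℕ} {f g : (Fin n → A.N) → A.N} (hf : Td f) (hg : Td g) :
    Td (fun v => f v * g v) := by
  obtain ⟨s, hs⟩ := hf
  obtain ⟨t, ht⟩ := hg
  exact ⟨.mul s t, fun v => by beta_reduce; rw [c.mul, ← hs, ← ht]; rfl⟩

theorem td_pr (c : Ctx A) {n : ℕ} {f g : (Fin n → A.N) → A.N} (hf : Td f) (hg : Td g) :
    Td (fun v => pr (f v) (g v)) :=
  td_add c (td_mul c (td_add c hf hg) (td_add c hf hg)) hf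

/-! ### bounded relations -/

/-- `R` is defined by a bounded formula -/
def Bd {n : ℕ} (R : (Fin n → A.N) → Prop) : Prop :=
  ∃ θ : Fm A n, θ.Bdd ∧ ∀ v, θ.Sat v ↔ R v

theorem Bd.cg {n : ℕ} {R R' : (Fin n → A.N) → Prop} (h : Bd R) (hR : ∀ v, R v ↔ R' v) :
    Bd R' := by
  obtain ⟨θ, h1, h2⟩ := h
  exact ⟨θ, h1, fun v => (h2 v).trans (hR v)⟩

theorem bd_eq {n : ℕ} {f g : (Fin n → A.N) → A.N} (hf : Td f) (hg : Td g) :
    Bd (fun v => f v = g v) := by
  obtain ⟨s, hs⟩ := hf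
  obtain ⟨t, ht⟩ := hg
  exact ⟨.eq s t, trivial, fun v => by simp only [Fm.Sat, hs, ht]⟩

theorem bd_lt (c : Ctx A) {n : ℕ} {f g : (Fin n → A.N) → A.N} (hf : Td f) (hg : Td g) :
    Bd (fun v => f v < g v) := by
  obtain ⟨s, hs⟩ := hf
  obtain ⟨t, ht⟩ := hg
  exact ⟨.lt s t, trivial, fun v => by simp only [Fm.Sat, hs, ht, c.lt]⟩

theorem bd_mem {n : ℕ} {f : (Fin n → A.N) → A.N} (hf : Td f) {X : Set A.N} (hX : X ∈ A.sets) :
    Bd (fun v => f v ∈ X) := by
  obtain ⟨s, hs⟩ := hf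
  exact ⟨.mem s X hX, trivial, fun v => by simp only [Fm.Sat, hs]⟩

theorem Bd.not {n : ℕ} {R : (Fin n → A.N) → Prop} (h : Bd R) : Bd (fun v => ¬ R v) := by
  obtain ⟨θ, h1, h2⟩ := h
  exact ⟨.not θ, h1, fun v => by simp only [Fm.Sat, h2]⟩

theorem Bd.and {n : ℕ} {R R' : (Fin n → A.N) → Prop} (h : Bd R) (h' : Bd R') :
    Bd (fun v => R v ∧ R' v) := by
  obtain ⟨θ, h1, h2⟩ := h
  obtain ⟨η, h3, h4⟩ := h'
  exact ⟨.and θ η, ⟨h1, h3⟩, fun v => by simp only [Fm.Sat, h2, h4]⟩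

theorem Bd.or {n : ℕ} {R R' : (Fin n → A.N) → Prop} (h : Bd R) (h' : Bd R') :
    Bd (fun v => R v ∨ R' v) :=
  (h.not.and h'.not).not.cg fun v => by tauto

theorem Bd.ball (c : Ctx A) {n : ℕ} {R : (Fin (n + 1) → A.N) → Prop} {t : (Fin n → A.N) → A.N}
    (ht : Td t) (h : Bd R) : Bd (fun v => ∀ x < t v, R (Fin.cons x v)) := by
  obtain ⟨s, hs⟩ := ht
  obtain ⟨θ, h1, h2⟩ := h
  exact ⟨.ball s θ, h1, fun v => by simp only [Fm.Sat, h2, hs, c.lt]⟩

theorem Bd.bex (c : Ctx A) {n : ℕ} {R : (Fin (n + 1) → A.N) → Prop} {t : (Fin n → A.N) → A.N}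
    (ht : Td t) (h : Bd R) : Bd (fun v => ∃ x < t v, R (Fin.cons x v)) :=
  (h.not.ball c ht).not.cg fun v => by push Not; rfl

theorem Bd.ren {n m : ℕ} {R : (Fin n → A.N) → Prop} (h : Bd R) (σ : Fin n → Fin m) :
    Bd (fun v : Fin m → A.N => R (fun i => v (σ i))) := by
  obtain ⟨θ, h1, h2⟩ := h
  exact ⟨fren θ σ, fren_bdd θ σ h1, fun v => by rw [fren_sat, h2]⟩

/-! ### `Σ⁰₁` and `Δ⁰₁` relations -/

/-- `Σ⁰₁` relations -/
def Sg {n : ℕ} (R : (Fin n → A.N) → Prop) : Prop :=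
  ∃ B : (Fin (n + 1) → A.N) → Prop, Bd B ∧ ∀ v, R v ↔ ∃ x, B (Fin.cons x v)

theorem Sg.cg {n : ℕ} {R R' : (Fin n → A.N) → Prop} (h : Sg R) (hR : ∀ v, R v ↔ R' v) :
    Sg R' := by
  obtain ⟨θ, h1, h2⟩ := h
  exact ⟨θ, h1, fun v => (hR v).symm.trans (h2 v)⟩

theorem sg_of_bd {n : ℕ} {R : (Fin n → A.N) → Prop} (h : Bd R) : Sg R := by
  refine ⟨fun u => R (fun i => u i.succ), h.ren Fin.succ, fun v => ?_⟩
  simp

theorem lt_one_add (c : Ctx A) {x y : A.N} : x < y + 1 ↔ x ≤ y := by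
  constructor
  · intro hx
    by_contra hc
    have := c.succ y x (not_le.1 hc)
    exact absurd hx (not_lt.2 this)
  · intro hx
    exact lt_of_le_of_lt hx (lt_add_of_pos_right _ one_pos)

theorem Sg.ex (c : Ctx A) {n : ℕ} {R : (Fin (n + 1) → A.N) → Prop} (h : Sg R) :
    Sg (fun v => ∃ x, R (Fin.cons x v)) := by
  obtain ⟨B, hB, hR⟩ := h
  -- B has the variables (witness, x, v); new formula: variables (z, v)
  -- exists x < z + 1, exists w < z + 1, B (w, x, v)
  refine ⟨fun u => ∃ x < u 0 + 1, ∃ w < u 0 + 1, B (Fin.cons w (Fin.cons x (Fin.tail u))), ?_, ?_⟩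
  · have h1 : Bd (fun u : Fin (n + 3) → A.N =>
        B (fun i => u ((Fin.cons 0 (Fin.cons 1 (fun i : Fin n => i.succ.succ.succ)) :
          Fin (n + 2) → Fin (n + 3)) i))) := hB.ren _
    have h2 : Bd (fun u : Fin (n + 2) → A.N => ∃ w < u 1 + 1,
        (fun u : Fin (n + 3) → A.N =>
        B (fun i => u ((Fin.cons 0 (Fin.cons 1 (fun i : Fin n => i.succ.succ.succ)) :
          Fin (n + 2) → Fin (n + 3)) i))) (Fin.cons w u)) :=
      h1.bex c (td_add c (td_var 1) (td_const 1))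
    have h3 := h2.bex c (td_add c (td_var (0 : Fin (n + 1))) (td_const 1))
    refine h3.cg fun u => ?_
    refine exists_congr fun x => and_congr_right fun _ => ?_
    refine exists_congr fun w => ?_
    have e : (fun i => (Fin.cons w (Fin.cons x u : Fin (n + 2) → A.N) : Fin (n + 3) → A.N)
        ((Fin.cons 0 (Fin.cons 1 (fun i : Fin n => i.succ.succ.succ)) :
          Fin (n + 2) → Fin (n + 3)) i)) = Fin.cons w (Fin.cons x (Fin.tail u)) := by
      funext i
      refine Fin.cases ?_ (fun j => ?_) i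
      · simp
      · refine Fin.cases ?_ (fun k => ?_) j
        · simp only [Fin.cons_succ, Fin.cons_zero]
          rfl
        · simp [Fin.tail]
    simp only [e]
    rfl
  · intro v
    constructor
    · rintro ⟨x, hx⟩
      obtain ⟨w, hw⟩ := (hR _).1 hx
      refine ⟨max x w, x, ?_, w, ?_, ?_⟩
      · exact (lt_one_add c).2 (le_max_left _ _)
      · exact (lt_one_add c).2 (le_max_right _ _)
      · simpa using hw
    · rintro ⟨z, x, -, w, -, hw⟩
      refine ⟨x, (hR _).2 ⟨w, ?_⟩⟩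
      simpa using hw

theorem Sg.ren {n m : ℕ} {R : (Fin n → A.N) → Prop} (h : Sg R) (σ : Fin n → Fin m) :
    Sg (fun v : Fin m → A.N => R (fun i => v (σ i))) := by
  obtain ⟨B, hB, hR⟩ := h
  refine ⟨_, hB.ren (lft σ), fun v => ?_⟩
  simp only [hR, cons_lft]

theorem Sg.and (c : Ctx A) {n : ℕ} {R R' : (Fin n → A.N) → Prop} (h : Sg R) (h' : Sg R') :
    Sg (fun v => R v ∧ R' v) := by
  obtain ⟨B, hB, hR⟩ := h
  obtain ⟨B', hB', hR'⟩ := h'
  -- exists x, exists w, B (w, v) and B' (x, v)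
  have h1 : Bd (fun u : Fin (n + 2) → A.N =>
      B (fun i => u ((Fin.cons 0 (fun i : Fin n => i.succ.succ) : Fin (n + 1) → Fin (n + 2)) i)) ∧
      B' (fun i => u (i.succ))) := (hB.ren _).and (hB'.ren _)
  have h2 : Sg (fun u : Fin (n + 1) → A.N => ∃ w, (fun u : Fin (n + 2) → A.N =>
      B (fun i => u ((Fin.cons 0 (fun i : Fin n => i.succ.succ) : Fin (n + 1) → Fin (n + 2)) i)) ∧
      B' (fun i => u (i.succ))) (Fin.cons w u)) := ⟨_, h1, fun _ => Iff.rfl⟩
  refine (h2.ex c).cg fun v => ?_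
  have e : ∀ x w : A.N, (fun i => (Fin.cons w (Fin.cons x v : Fin (n + 1) → A.N) :
      Fin (n + 2) → A.N) ((Fin.cons 0 (fun i : Fin n => i.succ.succ) :
      Fin (n + 1) → Fin (n + 2)) i)) = Fin.cons w v := by
    intro x w
    funext i
    refine Fin.cases ?_ (fun j => ?_) i
    · simp
    · simp
  have e' : ∀ x w : A.N, (fun i : Fin (n + 1) => (Fin.cons w (Fin.cons x v : Fin (n + 1) → A.N) :
      Fin (n + 2) → A.N) i.succ) = Fin.cons x v := by
    intro x w
    funext i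
    simp
  simp only [e, e', hR, hR']
  constructor
  · rintro ⟨x, w, h1, h2⟩
    exact ⟨⟨w, h1⟩, ⟨x, h2⟩⟩
  · rintro ⟨⟨w, h1⟩, ⟨x, h2⟩⟩
    exact ⟨x, w, h1, h2⟩

theorem Sg.or {n : ℕ} {R R' : (Fin n → A.N) → Prop} (h : Sg R) (h' : Sg R') :
    Sg (fun v => R v ∨ R' v) := by
  obtain ⟨B, hB, hR⟩ := h
  obtain ⟨B', hB', hR'⟩ := h'
  refine ⟨_, hB.or hB', fun v => ?_⟩
  simp only [hR, hR', exists_or]

/-- `Δ⁰₁` relations -/
def Dl {n : ℕ} (R : (Fin n → A.N) → Prop) : Prop := Sg R ∧ Sg (fun v => ¬ R v)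

theorem dl_of_bd {n : ℕ} {R : (Fin n → A.N) → Prop} (h : Bd R) : Dl R :=
  ⟨sg_of_bd h, sg_of_bd h.not⟩

theorem Dl.cg {n : ℕ} {R R' : (Fin n → A.N) → Prop} (h : Dl R) (hR : ∀ v, R v ↔ R' v) :
    Dl R' :=
  ⟨h.1.cg hR, h.2.cg fun v => not_congr (hR v)⟩

theorem Dl.not {n : ℕ} {R : (Fin n → A.N) → Prop} (h : Dl R) : Dl (fun v => ¬ R v) :=
  ⟨h.2, h.1.cg fun v => by tauto⟩

/-- substitution of a function with a `Σ⁰₁` graph -/
theorem Dl.subst (c : Ctx A) {n : ℕ} {R : (Fin (n + 1) → A.N) → Prop} (h : Dl R)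
    {F : (Fin n → A.N) → A.N} (hF : Sg (fun u : Fin (n + 1) → A.N => F (Fin.tail u) = u 0)) :
    Dl (fun v => R (Fin.cons (F v) v)) := by
  constructor
  · refine ((hF.and c h.1).ex c).cg fun v => ?_
    simp
  · refine ((hF.and c h.2).ex c).cg fun v => ?_
    simp

/-! ### comprehension -/

theorem dec_of_dl (c : Ctx A) {P : A.N → Prop} (h : Dl (fun v : Fin 1 → A.N => P (v 0))) :
    Dec A.sets P := by
  have key : ∀ {P : A.N → Prop}, Sg (fun v : Fin 1 → A.N => P (v 0)) → IsSigma1 A P := by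
    rintro P ⟨B, ⟨θ, h1, h2⟩, h3⟩
    refine ⟨θ, h1, fun n => ?_⟩
    have := h3 ![n]
    refine this.trans (exists_congr fun x => ?_)
    exact (h2 _).symm
  exact c.rca.delta1_comprehension P (fun n => ¬ P n) (key h.1) (key h.2) fun n => by simp

theorem bd_of_dec {P : A.N → Prop} (h : Dec A.sets P) {n : ℕ} {f : (Fin n → A.N) → A.N}
    (hf : Td f) : Bd (fun v => P (f v)) := bd_mem hf h

/-! ### pairing -/

theorem one_add_le (c : Ctx A) {x y : A.N} : x + 1 ≤ y ↔ x < y := by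
  constructor
  · intro hx
    exact lt_of_lt_of_le (lt_add_of_pos_right _ one_pos) hx
  · exact c.succ x y

theorem pr_lt (c : Ctx A) {x y x' y' : A.N} (hlt : x + y < x' + y') : pr x y < pr x' y' := by
  have h1 : x + y + 1 ≤ x' + y' := (one_add_le c).2 hlt
  have h2 : (x + y + 1) * (x + y + 1) ≤ (x' + y') * (x' + y') :=
    mul_le_mul h1 h1 zero_le zero_le
  have h3 : (x + y) * (x + y) + x < (x + y + 1) * (x + y + 1) := by
    have e : (x + y + 1) * (x + y + 1) = ((x + y) * (x + y) + x) + (x + y + y + 1) := by ring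
    rw [e]
    exact lt_add_of_pos_right _ (lt_of_lt_of_le one_pos le_add_self)
  calc pr x y = (x + y) * (x + y) + x := rfl
    _ < (x + y + 1) * (x + y + 1) := h3
    _ ≤ (x' + y') * (x' + y') := h2
    _ ≤ (x' + y') * (x' + y') + x' := le_self_add

theorem pr_inj (c : Ctx A) {x y x' y' : A.N} (he : pr x y = pr x' y') : x = x' ∧ y = y' := by
  have hs : x + y = x' + y' := by
    rcases lt_trichotomy (x + y) (x' + y') with h1 | h1 | h1
    · exact absurd he (pr_lt c h1).ne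
    · exact h1
    · exact absurd he (pr_lt c h1).ne'
  have hx : x = x' := by
    have : (x + y) * (x + y) + x = (x' + y') * (x' + y') + x' := he
    rw [hs] at this
    exact add_left_cancel this
  subst hx
  exact ⟨rfl, add_left_cancel hs⟩

theorem p1_pr (c : Ctx A) (x y : A.N) : p1 (pr x y) = x := by
  unfold p1
  have hx : ∃ x' y', pr x y = pr x' y' := ⟨x, y, rfl⟩
  rw [dif_pos hx]
  exact (pr_inj c hx.choose_spec.choose_spec).1.symm

theorem p2_pr (c : Ctx A) (x y : A.N) : p2 (pr x y) = y := by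
  unfold p2
  have hx : ∃ x' y', pr x y = pr x' y' := ⟨x, y, rfl⟩
  rw [dif_pos hx]
  exact (pr_inj c hx.choose_spec.choose_spec).2.symm

theorem le_pr_left (x y : A.N) : x ≤ pr x y := le_add_self

theorem le_pr_right (c : Ctx A) (x y : A.N) : y ≤ pr x y := by
  rcases eq_or_ne y 0 with rfl | hy
  · exact zero_le
  · have h1 : 1 ≤ y := by
      have := (one_add_le c (x := 0) (y := y)).2 (pos_iff_ne_zero.2 hy)
      rwa [zero_add] at this
    calc y = 1 * y := (one_mul y).symm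
      _ ≤ (x + y) * (x + y) := mul_le_mul (h1.trans le_add_self) le_add_self zero_le zero_le
      _ ≤ pr x y := le_self_add

/-- `p` is a pair -/
def IsPr (p : A.N) : Prop := ∃ x < p + 1, ∃ y < p + 1, p = pr x y

theorem isPr_iff (c : Ctx A) (p : A.N) : IsPr p ↔ ∃ x y, p = pr x y := by
  constructor
  · rintro ⟨x, -, y, -, h⟩
    exact ⟨x, y, h⟩
  · rintro ⟨x, y, rfl⟩
    exact ⟨x, (lt_one_add c).2 (le_pr_left _ _), y, (lt_one_add c).2 (le_pr_right c _ _), rfl⟩

theorem bd_isPr (c : Ctx A) {n : ℕ} (i : Fin n) : Bd (fun v : Fin n → A.N => IsPr (v i)) := by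
  have h1 : Bd (fun u : Fin (n + 2) → A.N => u (i.succ.succ) = pr (u 1) (u 0)) :=
    bd_eq (td_var _) (td_pr c (td_var _) (td_var _))
  have h2 := h1.bex c (td_add c (td_var (i.succ)) (td_const 1))
  have h3 := h2.bex c (td_add c (td_var i) (td_const 1))
  exact h3

theorem p1_eq_iff (c : Ctx A) (p x : A.N) :
    p1 p = x ↔ (∃ y < p + 1, p = pr x y) ∨ (¬ IsPr p ∧ x = 0) := by
  rw [isPr_iff c]
  by_cases h : ∃ x y, p = pr x y
  · obtain ⟨a, b, rfl⟩ := h
    rw [p1_pr c]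
    constructor
    · rintro rfl
      exact Or.inl ⟨b, (lt_one_add c).2 (le_pr_right c _ _), rfl⟩
    · rintro (⟨y, -, hy⟩ | ⟨h, -⟩)
      · exact (pr_inj c hy).1
      · exact absurd ⟨a, b, rfl⟩ h
  · have h0 : p1 p = 0 := by
      unfold p1
      rw [dif_neg h]
    rw [h0]
    constructor
    · rintro rfl
      exact Or.inr ⟨h, rfl⟩
    · rintro (⟨y, -, hy⟩ | ⟨-, h⟩)
      · exact absurd ⟨x, y, hy⟩ h
      · exact h.symm

theorem p2_eq_iff (c : Ctx A) (p y : A.N) :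
    p2 p = y ↔ (∃ x < p + 1, p = pr x y) ∨ (¬ IsPr p ∧ y = 0) := by
  rw [isPr_iff c]
  by_cases h : ∃ x y, p = pr x y
  · obtain ⟨a, b, rfl⟩ := h
    rw [p2_pr c]
    constructor
    · rintro rfl
      exact Or.inl ⟨a, (lt_one_add c).2 (le_pr_left _ _), rfl⟩
    · rintro (⟨y, -, hy⟩ | ⟨h, -⟩)
      · exact (pr_inj c hy).2
      · exact absurd ⟨a, b, rfl⟩ h
  · have h0 : p2 p = 0 := by
      unfold p2
      rw [dif_neg h]
    rw [h0]
    constructor
    · rintro rfl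
      exact Or.inr ⟨h, rfl⟩
    · rintro (⟨x, -, hy⟩ | ⟨-, h⟩)
      · exact absurd ⟨x, y, hy⟩ h
      · exact h.symm

theorem bd_p1 (c : Ctx A) {n : ℕ} (i j : Fin n) : Bd (fun v : Fin n → A.N => p1 (v i) = v j) := by
  have h1 : Bd (fun u : Fin (n + 1) → A.N => u (i.succ) = pr (u j.succ) (u 0)) :=
    bd_eq (td_var _) (td_pr c (td_var _) (td_var _))
  have h2 := h1.bex c (td_add c (td_var i) (td_const 1))
  have h3 := h2.or ((bd_isPr c i).not.and (bd_eq (td_var j) (td_const (0 : A.N))))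
  exact h3.cg fun v => (p1_eq_iff c _ _).symm

theorem bd_p2 (c : Ctx A) {n : ℕ} (i j : Fin n) : Bd (fun v : Fin n → A.N => p2 (v i) = v j) := by
  have h1 : Bd (fun u : Fin (n + 1) → A.N => u (i.succ) = pr (u 0) (u j.succ)) :=
    bd_eq (td_var _) (td_pr c (td_var _) (td_var _))
  have h2 := h1.bex c (td_add c (td_var i) (td_const 1))
  have h3 := h2.or ((bd_isPr c i).not.and (bd_eq (td_var j) (td_const (0 : A.N))))
  exact h3.cg fun v => (p2_eq_iff c _ _).symm

/-! ### relations and functions of the model -/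

theorem bd_of_dec₂ (c : Ctx A) {P : A.N → A.N → Prop} (h : Dec₂ A.sets P) {n : ℕ}
    {f g : (Fin n → A.N) → A.N} (hf : Td f) (hg : Td g) : Bd (fun v => P (f v) (g v)) :=
  (bd_of_dec h (td_pr c hf hg)).cg fun v => by simp only [p1_pr c, p2_pr c]

theorem bd_of_fn (c : Ctx A) {k : A.N → A.N} (h : Fn A.sets k) {n : ℕ}
    {f g : (Fin n → A.N) → A.N} (hf : Td f) (hg : Td g) : Bd (fun v => k (f v) = g v) :=
  bd_of_dec₂ c (P := fun x y => k x = y) h hf hg

theorem dec₂_of_dl (c : Ctx A) {P : A.N → A.N → Prop}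
    (h : Dl (fun v : Fin 2 → A.N => P (v 0) (v 1))) : Dec₂ A.sets P := by
  refine dec_of_dl c ?_
  -- variables (a, b, q)
  have h1 : Dl (fun v : Fin 3 → A.N => P (v 0) (v 1)) := by
    refine ⟨?_, ?_⟩
    · exact (h.1.ren (![0, 1] : Fin 2 → Fin 3)).cg fun v => Iff.rfl
    · exact (h.2.ren (![0, 1] : Fin 2 → Fin 3)).cg fun v => Iff.rfl
  have h2 := h1.subst c (F := fun v : Fin 2 → A.N => p1 (v 1)) (sg_of_bd (bd_p1 c 2 0))
  have h3 := h2.subst c (F := fun v : Fin 1 → A.N => p2 (v 0)) (sg_of_bd (bd_p2 c 1 0))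
  exact h3

theorem fn_of_dl (c : Ctx A) {k : A.N → A.N}
    (h : Dl (fun v : Fin 2 → A.N => k (v 0) = v 1)) : Fn A.sets k :=
  dec₂_of_dl c (P := fun x y => k x = y) h

theorem base (c : Ctx A) : Base A.sets where
  succ_le := c.succ
  not := by
    intro P h
    exact dec_of_dl c (dl_of_bd (bd_of_dec h (td_var 0)).not)
  and := by
    intro P Q h h'
    exact dec_of_dl c (dl_of_bd ((bd_of_dec h (td_var 0)).and (bd_of_dec h' (td_var 0))))
  comp := by
    intro P f h hf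
    have h1 : Dl (fun v : Fin 2 → A.N => P (v 0)) := dl_of_bd (bd_of_dec h (td_var 0))
    exact dec_of_dl c (h1.subst c (F := fun v : Fin 1 → A.N => f (v 0))
      (sg_of_bd (bd_of_fn c hf (td_var 1) (td_var 0))))
  eq := by
    intro f g hf hg
    have h1 : Dl (fun v : Fin 2 → A.N => g (v 1) = v 0) :=
      dl_of_bd (bd_of_fn c hg (td_var 1) (td_var 0))
    refine dec_of_dl c ((h1.subst c (F := fun v : Fin 1 → A.N => f (v 0))
      (sg_of_bd (bd_of_fn c hf (td_var 1) (td_var 0)))).cg fun v => ?_)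
    exact eq_comm
  lt := by
    intro f g hf hg
    have h1 : Dl (fun v : Fin 3 → A.N => v 1 < v 0) := dl_of_bd (bd_lt c (td_var 1) (td_var 0))
    have h2 := h1.subst c (F := fun v : Fin 2 → A.N => g (v 1))
      (sg_of_bd (bd_of_fn c hg (td_var 2) (td_var 0)))
    have h3 := h2.subst c (F := fun v : Fin 1 → A.N => f (v 0))
      (sg_of_bd (bd_of_fn c hf (td_var 1) (td_var 0)))
    exact dec_of_dl c h3
  fn_id := fn_of_dl c (dl_of_bd (bd_eq (td_var 0) (td_var 1)))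
  fn_const := fun a => fn_of_dl c (dl_of_bd (bd_eq (td_const a) (td_var 1)))
  fn_comp := by
    intro f g hf hg
    have h1 : Dl (fun v : Fin 3 → A.N => f (v 0) = v 2) :=
      dl_of_bd (bd_of_fn c hf (td_var 0) (td_var 2))
    have h2 := h1.subst c (F := fun v : Fin 2 → A.N => g (v 0))
      (sg_of_bd (bd_of_fn c hg (td_var 1) (td_var 0)))
    exact fn_of_dl c h2
  fn_add := by
    intro f g hf hg
    -- variables (g x, f x, x, z)
    have h1 : Dl (fun v : Fin 4 → A.N => v 1 + v 0 = v 3) :=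
      dl_of_bd (bd_eq (td_add c (td_var 1) (td_var 0)) (td_var 3))
    have h2 := h1.subst c (F := fun v : Fin 3 → A.N => g (v 1))
      (sg_of_bd (bd_of_fn c hg (td_var 2) (td_var 0)))
    have h3 := h2.subst c (F := fun v : Fin 2 → A.N => f (v 0))
      (sg_of_bd (bd_of_fn c hf (td_var 1) (td_var 0)))
    exact fn_of_dl c h3
  fn_mul := by
    intro f g hf hg
    have h1 : Dl (fun v : Fin 4 → A.N => v 1 * v 0 = v 3) :=
      dl_of_bd (bd_eq (td_mul c (td_var 1) (td_var 0)) (td_var 3))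
    have h2 := h1.subst c (F := fun v : Fin 3 → A.N => g (v 1))
      (sg_of_bd (bd_of_fn c hg (td_var 2) (td_var 0)))
    have h3 := h2.subst c (F := fun v : Fin 2 → A.N => f (v 0))
      (sg_of_bd (bd_of_fn c hf (td_var 1) (td_var 0)))
    exact fn_of_dl c h3
  fn_p1 := fn_of_dl c (dl_of_bd (bd_p1 c 0 1))
  fn_p2 := fn_of_dl c (dl_of_bd (bd_p2 c 0 1))
  ball := by
    intro t P ht hP
    -- variables (y, b, x)
    have h0 : Bd (fun v : Fin 3 → A.N => P (v 0) (v 2)) := bd_of_dec₂ c hP (td_var 0) (td_var 2)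
    have h1 := h0.ball c (td_var (0 : Fin 2))
    have h2 := (dl_of_bd h1).subst c (F := fun v : Fin 1 → A.N => t (v 0))
      (sg_of_bd (bd_of_fn c ht (td_var 1) (td_var 0)))
    exact dec_of_dl c h2
  delta1 := by
    intro P Q hP hQ hPQ
    refine dec_of_dl c ⟨?_, ?_⟩
    · exact ⟨_, bd_of_dec₂ c hP (td_var 0) (td_var 1), fun v => Iff.rfl⟩
    · refine Sg.cg (R := fun v : Fin 1 → A.N => ∃ y, Q y (v 0))
        ⟨_, bd_of_dec₂ c hQ (td_var 0) (td_var 1), fun v => Iff.rfl⟩ fun v => ?_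
      simp only [hPQ, not_not]
  sigma_ind := by
    intro P hP h0 hs x
    obtain ⟨θ, h1, h2⟩ := bd_of_dec₂ c hP (td_var (0 : Fin 2)) (td_var 1)
    refine c.rca.sigma1_induction (fun x => ∃ y, P y x) ⟨θ, h1, fun n => ?_⟩ ?_ ?_ x
    · exact exists_congr fun y => (h2 ![y, n]).symm
    · rw [← c.zero]
      exact h0
    · intro n hn
      rw [← c.one, ← c.add]
      exact hs n hn

end RcaAux

/-- T1b -/
theorem base_of_RCA0 (A : L2.{u}) (hA : RCA0 A) [CommSemiring A.N] [LinearOrder A.N]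
    [IsStrictOrderedRing A.N] [CanonicallyOrderedAdd A.N]
    (hadd : ∀ x y : A.N, x + y = A.add x y) (hmul : ∀ x y : A.N, x * y = A.mul x y)
    (h0 : (0 : A.N) = A.zero) (h1 : (1 : A.N) = A.one)
    (hlt : ∀ x y : A.N, x < y ↔ A.lt x y) (hsucc : ∀ x y : A.N, x < y → x + 1 ≤ y) :
    Base A.sets :=
  RcaAux.base ⟨hA, hadd, hmul, h0, h1, hlt, hsucc⟩

/-- T1 -/
theorem exists_frame (A : L2.{u}) (hA : RCA0 A) :
    ∃ (_ : CommSemiring A.N) (_ : LinearOrder A.N) (_ : IsStrictOrderedRing A.N)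
      (_ : CanonicallyOrderedAdd A.N),
      (∀ x y : A.N, x + y = A.add x y) ∧ (∀ x y : A.N, x * y = A.mul x y) ∧
      (0 : A.N) = A.zero ∧ (1 : A.N) = A.one ∧ (∀ x y : A.N, x < y ↔ A.lt x y) ∧
      Base A.sets := by
  obtain ⟨i1, i2, i3, i4, hadd, hmul, h0, h1, hlt, hsucc⟩ := exists_order A hA
  exact ⟨i1, i2, i3, i4, hadd, hmul, h0, h1, hlt, base_of_RCA0 A hA hadd hmul h0 h1 hlt hsucc⟩

end Pool.Agent.Helper56.TH
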